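import Pool.Agent.helper36.MP.SpecP

/-!
# MP_af9036_an, module HAR: Harnack type lemma
-/

set_option autoImplicit false

open Complex Metric Set Filter Topology MeasureTheory

noncomputable section

namespace MPS

/-- rotations preserve integrals over balls about `0` -/
theorem HAR_rot (G : ℂ → ℂ) (ρ θ : ℝ) :
    ∫ ξ in ball (0 : ℂ) ρ, G (circleMap 0 1 θ * ξ) = ∫ ξ in ball (0 : ℂ) ρ, G ξ := by
  have h1 := (rotation (Circle.exp θ)).measurePreserving
  have hemb : MeasurableEmbedding (rotation (Circle.exp θ)) :=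
    (rotation (Circle.exp θ)).toHomeomorph.measurableEmbedding
  have hpre : (rotation (Circle.exp θ)) ⁻¹' (ball 0 ρ) = ball 0 ρ := by
    ext x
    simp only [mem_preimage, mem_ball_zero_iff, LinearIsometryEquiv.norm_map]
  have happ : ∀ ξ, rotation (Circle.exp θ) ξ = circleMap 0 1 θ * ξ := by
    intro ξ
    rw [rotation_apply, circleMap]
    simp
  have h2 := h1.setIntegral_preimage_emb hemb G (ball 0 ρ)
  rw [hpre] at h2
  simp only [happ] at h2
  exact h2

/-- the circle mean -/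
theorem HAR_circ {f : ℂ → ℂ} {a : ℂ} {r ρ : ℝ} (hr : ρ < r)
    (hf : DifferentiableOn ℂ f (ball a r)) {ξ : ℂ} (hξ : ‖ξ‖ ≤ ρ) :
    ∫ θ in (0 : ℝ)..2 * Real.pi, f (a + circleMap 0 1 θ * ξ) = 2 * Real.pi * f a := by
  have hpi : (2 * Real.pi : ℂ) ≠ 0 := by
    have := Real.pi_ne_zero
    exact_mod_cast (mul_ne_zero two_ne_zero this)
  have hd : DifferentiableOn ℂ (fun w : ℂ => f (a + w * ξ)) (closedBall 0 1) := by
    intro w hw
    rw [mem_closedBall_zero_iff] at hw
    have h1 : a + w * ξ ∈ ball a r := by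
      rw [mem_ball_iff_norm, add_sub_cancel_left, norm_mul]
      have h2 : ‖w‖ * ‖ξ‖ ≤ 1 * ρ := mul_le_mul hw hξ (norm_nonneg _) zero_le_one
      linarith
    have h3 : DifferentiableAt ℂ f (a + w * ξ) := hf.differentiableAt (isOpen_ball.mem_nhds h1)
    have h4 : DifferentiableAt ℂ (fun w : ℂ => a + w * ξ) w :=
      (differentiableAt_const a).add (differentiableAt_id.mul (differentiableAt_const ξ))
    exact (DifferentiableAt.comp w h3 h4).differentiableWithinAt
  have h1 : DiffContOnCl ℂ (fun w : ℂ => f (a + w * ξ)) (ball 0 |1|) := by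
    rw [abs_one]
    exact hd.diffContOnCl_ball subset_rfl
  have h2 := h1.circleAverage
  rw [Real.circleAverage_def] at h2
  simp only [zero_mul, add_zero] at h2
  rw [← h2, Complex.real_smul]
  push_cast
  rw [← mul_assoc, mul_inv_cancel₀ hpi, one_mul]

theorem HAR_vol (a : ℂ) {ρ : ℝ} (hρ : 0 ≤ ρ) : (volume (ball a ρ)).toReal = Real.pi * ρ ^ 2 := by
  rw [Complex.volume_ball, ENNReal.toReal_mul, ENNReal.toReal_pow, ENNReal.toReal_ofReal hρ]
  rw [ENNReal.coe_toReal, NNReal.coe_real_pi]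
  ring

/-- area mean value property -/
theorem HAR_area {f : ℂ → ℂ} {a : ℂ} {r ρ : ℝ} (hρ : 0 ≤ ρ) (hr : ρ < r)
    (hf : DifferentiableOn ℂ f (ball a r)) :
    ∫ z in ball a ρ, f z = ((Real.pi * ρ ^ 2 : ℝ) : ℂ) * f a := by
  have hpi : (2 * Real.pi : ℂ) ≠ 0 := by
    have := Real.pi_ne_zero
    exact_mod_cast (mul_ne_zero two_ne_zero this)
  -- translation
  have e1 : ∫ z in ball a ρ, f z = ∫ ξ in ball (0 : ℂ) ρ, f (a + ξ) := by
    have h1 := (measurePreserving_add_left (volume : Measure ℂ) a).setIntegral_preimage_emb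
      (measurableEmbedding_addLeft a) f (ball a ρ)
    rw [← h1]
    congr 2
    ext x
    simp
  have e2 : ∀ θ : ℝ, ∫ ξ in ball (0 : ℂ) ρ, f (a + circleMap 0 1 θ * ξ) =
      ∫ ξ in ball (0 : ℂ) ρ, f (a + ξ) := fun θ => HAR_rot (fun ξ => f (a + ξ)) ρ θ
  have hcont : ContinuousOn (fun p : ℝ × ℂ => f (a + circleMap 0 1 p.1 * p.2))
      (Icc 0 (2 * Real.pi) ×ˢ closedBall (0 : ℂ) ρ) := by
    have h1 : ContinuousOn f (ball a r) := hf.continuousOn
    refine h1.comp ?_ ?_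
    · refine Continuous.continuousOn ?_
      exact continuous_const.add (((continuous_circleMap 0 1).comp continuous_fst).mul
        continuous_snd)
    · rintro ⟨θ, ξ⟩ ⟨-, hξ⟩
      rw [mem_closedBall_zero_iff] at hξ
      show a + circleMap 0 1 θ * ξ ∈ ball a r
      rw [mem_ball_iff_norm, add_sub_cancel_left, norm_mul, norm_circleMap_zero, abs_one, one_mul]
      exact lt_of_le_of_lt hξ hr
  have hint : IntegrableOn (fun p : ℝ × ℂ => f (a + circleMap 0 1 p.1 * p.2))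
      (Ioc 0 (2 * Real.pi) ×ˢ ball (0 : ℂ) ρ) (volume.prod volume) := by
    have h1 : IntegrableOn (fun p : ℝ × ℂ => f (a + circleMap 0 1 p.1 * p.2))
        (Icc 0 (2 * Real.pi) ×ˢ closedBall (0 : ℂ) ρ) (volume.prod volume) :=
      hcont.integrableOn_compact (isCompact_Icc.prod (isCompact_closedBall _ _))
    exact h1.mono_set (prod_mono Ioc_subset_Icc_self ball_subset_closedBall)
  have hint' : Integrable (Function.uncurry fun (θ : ℝ) (ξ : ℂ) => f (a + circleMap 0 1 θ * ξ))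
      ((volume.restrict (Ioc 0 (2 * Real.pi))).prod (volume.restrict (ball (0 : ℂ) ρ))) := by
    rw [Measure.prod_restrict]
    exact hint
  have e3 : ∫ θ in (0 : ℝ)..2 * Real.pi, ∫ ξ in ball (0 : ℂ) ρ, f (a + circleMap 0 1 θ * ξ) =
      ∫ ξ in ball (0 : ℂ) ρ, ∫ θ in (0 : ℝ)..2 * Real.pi, f (a + circleMap 0 1 θ * ξ) := by
    simp only [intervalIntegral.integral_of_le Real.two_pi_pos.le]
    exact integral_integral_swap hint'
  have e4 : ∫ θ in (0 : ℝ)..2 * Real.pi, ∫ ξ in ball (0 : ℂ) ρ, f (a + circleMap 0 1 θ * ξ) =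
      (2 * Real.pi : ℂ) * ∫ z in ball a ρ, f z := by
    simp only [e2]
    rw [intervalIntegral.integral_const, e1, Complex.real_smul]
    push_cast
    ring
  have e5 : ∫ ξ in ball (0 : ℂ) ρ, ∫ θ in (0 : ℝ)..2 * Real.pi, f (a + circleMap 0 1 θ * ξ) =
      (2 * Real.pi : ℂ) * (((Real.pi * ρ ^ 2 : ℝ) : ℂ) * f a) := by
    have h1 : ∫ ξ in ball (0 : ℂ) ρ, ∫ θ in (0 : ℝ)..2 * Real.pi, f (a + circleMap 0 1 θ * ξ) =
        ∫ ξ in ball (0 : ℂ) ρ, (2 * Real.pi * f a : ℂ) := by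
      refine setIntegral_congr_fun measurableSet_ball fun ξ hξ => ?_
      exact HAR_circ hr hf (mem_ball_zero_iff.1 hξ).le
    rw [h1, setIntegral_const, Measure.real, HAR_vol 0 hρ, Complex.real_smul]
    ring
  exact mul_left_cancel₀ hpi (e4.symm.trans (e3.trans e5))

theorem HAR_real {ι : Type} (s : Finset ι) (h : ι → ℂ → ℂ) (a : ℂ) (r ν : ℝ) (hν : 0 ≤ ν)
    (hh : ∀ i ∈ s, DifferentiableOn ℂ (h i) (ball a r))
    (hI : ∫⁻ z in ball a r, ENNReal.ofReal (∑ i ∈ s, (‖h i z‖ - (h i z).re)) ≤ ENNReal.ofReal ν)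
    (ρ : ℝ) (hρ : 0 ≤ ρ) (hρr : ρ < r) :
    ∫⁻ z in ball a ρ, ENNReal.ofReal (∑ i ∈ s, ‖h i z‖) ≤
      ENNReal.ofReal (ν + Real.pi * r ^ 2 * ∑ i ∈ s, ‖h i a‖) := by
  have hint : ∀ i ∈ s, IntegrableOn (h i) (ball a ρ) := by
    intro i hi
    have h1 : ContinuousOn (h i) (closedBall a ρ) :=
      (hh i hi).continuousOn.mono (closedBall_subset_ball hρr)
    exact (h1.integrableOn_compact (isCompact_closedBall _ _)).mono_set ball_subset_closedBall
  have hintn : ∀ i ∈ s, IntegrableOn (fun z => ‖h i z‖) (ball a ρ) :=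
    fun i hi => (hint i hi).norm
  have hintr : ∀ i ∈ s, IntegrableOn (fun z => (h i z).re) (ball a ρ) :=
    fun i hi => (hint i hi).re
  have h0 : ∫ z in ball a ρ, ∑ i ∈ s, (‖h i z‖ - (h i z).re) ≤ ν := by
    have h1 : 0 ≤ᵐ[volume.restrict (ball a ρ)] fun z => ∑ i ∈ s, (‖h i z‖ - (h i z).re) :=
      ae_of_all _ fun z => Finset.sum_nonneg fun i _ => sub_nonneg.2 (Complex.re_le_norm _)
    have h2 : IntegrableOn (fun z => ∑ i ∈ s, (‖h i z‖ - (h i z).re)) (ball a ρ) :=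
      integrable_finsetSum s fun i hi => (hintn i hi).sub (hintr i hi)
    rw [integral_eq_lintegral_of_nonneg_ae h1 h2.aestronglyMeasurable]
    refine ENNReal.toReal_le_of_le_ofReal hν ?_
    exact (lintegral_mono_set (ball_subset_ball hρr.le)).trans hI
  have h3 : ∫ z in ball a ρ, ∑ i ∈ s, ‖h i z‖ ≤ ν + Real.pi * r ^ 2 * ∑ i ∈ s, ‖h i a‖ := by
    have hsubint : ∀ i ∈ s, IntegrableOn (fun z => ‖h i z‖ - (h i z).re) (ball a ρ) :=
      fun i hi => (hintn i hi).sub (hintr i hi)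
    have h4 : (∫ z in ball a ρ, ∑ i ∈ s, (‖h i z‖ - (h i z).re)) =
        (∫ z in ball a ρ, ∑ i ∈ s, ‖h i z‖) - ∑ i ∈ s, Real.pi * ρ ^ 2 * (h i a).re := by
      rw [integral_finsetSum s hsubint,
        integral_finsetSum s hintn, ← Finset.sum_sub_distrib]
      refine Finset.sum_congr rfl fun i hi => ?_
      rw [integral_sub (hintn i hi) (hintr i hi)]
      congr 1
      have h5 := HAR_area hρ hρr (hh i hi)
      have h6 : ∫ z in ball a ρ, (h i z).re = (∫ z in ball a ρ, h i z).re := by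
        exact integral_re (hint i hi)
      rw [h6, h5, Complex.re_ofReal_mul]
    rw [h4] at h0
    have h7 : ∑ i ∈ s, Real.pi * ρ ^ 2 * (h i a).re ≤ Real.pi * r ^ 2 * ∑ i ∈ s, ‖h i a‖ := by
      rw [Finset.mul_sum]
      refine Finset.sum_le_sum fun i _ => ?_
      have h8 : Real.pi * ρ ^ 2 ≤ Real.pi * r ^ 2 := by
        have := Real.pi_pos
        gcongr
      have h9 : 0 ≤ Real.pi * ρ ^ 2 := by positivity
      calc Real.pi * ρ ^ 2 * (h i a).re ≤ Real.pi * ρ ^ 2 * ‖h i a‖ :=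
            mul_le_mul_of_nonneg_left (Complex.re_le_norm _) h9
        _ ≤ Real.pi * r ^ 2 * ‖h i a‖ := mul_le_mul_of_nonneg_right h8 (norm_nonneg _)
    linarith
  rw [← ofReal_integral_eq_lintegral_ofReal (integrable_finsetSum s hintn)
    (ae_of_all _ fun z => Finset.sum_nonneg fun i _ => norm_nonneg _)]
  exact ENNReal.ofReal_le_ofReal h3

theorem HAR_union (a : ℂ) {r : ℝ} (hr : 0 < r) :
    ball a r = ⋃ m : ℕ, ball a (r * (1 - 1 / ((m : ℝ) + 1))) := by
  ext z
  rw [mem_iUnion]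
  constructor
  · intro hz
    rw [mem_ball] at hz
    have h1 : 0 < r - dist z a := sub_pos.2 hz
    obtain ⟨m, hm⟩ := exists_nat_one_div_lt (div_pos h1 hr)
    refine ⟨m, ?_⟩
    rw [mem_ball]
    rw [lt_div_iff₀ hr] at hm
    nlinarith
  · rintro ⟨m, hm⟩
    refine ball_subset_ball ?_ hm
    have : 0 ≤ 1 / ((m : ℝ) + 1) := by positivity
    nlinarith

/-- HAR. -/
theorem HAR (hHSM : HSM_stmt) : HAR_stmt := by
  intro ι s h a r ν hr hν hh hI
  have hfirst : ∫⁻ z in ball a r, ENNReal.ofReal (∑ i ∈ s, ‖h i z‖) ≤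
      ENNReal.ofReal (ν + Real.pi * r ^ 2 * ∑ i ∈ s, ‖h i a‖) := by
    rw [HAR_union a hr, setLIntegral_iUnion_of_directed]
    · refine iSup_le fun m => ?_
      have h1 : 0 ≤ 1 - 1 / ((m : ℝ) + 1) := by
        have h2 : 1 / ((m : ℝ) + 1) ≤ 1 := by
          rw [div_le_one (by positivity)]
          have : (0 : ℝ) ≤ m := Nat.cast_nonneg m
          linarith
        linarith
      have h3 : 0 < 1 / ((m : ℝ) + 1) := by positivity
      exact HAR_real s h a r ν hν hh hI _ (mul_nonneg hr.le h1) (by nlinarith)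
    · refine directed_of_isDirected_le ?_
      intro m m' hmm
      refine ball_subset_ball ?_
      have h1 : 1 / ((m' : ℝ) + 1) ≤ 1 / ((m : ℝ) + 1) := by
        apply one_div_le_one_div_of_le
        · positivity
        · have : (m : ℝ) ≤ m' := by exact_mod_cast hmm
          linarith
      nlinarith
  refine ⟨hfirst, ?_⟩
  intro z hz
  rw [mem_closedBall] at hz
  have hsub : ball z (r / 2) ⊆ ball a r := by
    refine ball_subset_ball' ?_
    linarith
  have h1 := hHSM ι s h z (r / 2) (by positivity) (fun i hi => (hh i hi).mono hsub)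
  have h2 := (h1.trans (lintegral_mono_set hsub)).trans hfirst
  have hpi := Real.pi_pos
  have h3 : 0 ≤ ν + Real.pi * r ^ 2 * ∑ i ∈ s, ‖h i a‖ := by
    have : 0 ≤ ∑ i ∈ s, ‖h i a‖ := Finset.sum_nonneg fun i _ => norm_nonneg _
    positivity
  have h4 : Real.pi * (r / 2) ^ 2 * ∑ i ∈ s, ‖h i z‖ ≤
      ν + Real.pi * r ^ 2 * ∑ i ∈ s, ‖h i a‖ := (ENNReal.ofReal_le_ofReal_iff h3).1 h2
  have h5 : 0 < Real.pi * r ^ 2 := by positivity
  have h6 : ∑ i ∈ s, ‖h i z‖ ≤ 4 * ((ν + Real.pi * r ^ 2 * ∑ i ∈ s, ‖h i a‖) /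
      (Real.pi * r ^ 2)) := by
    rw [← mul_div_assoc, le_div_iff₀ h5]
    nlinarith
  refine h6.trans (le_of_eq ?_)
  field_simp
  ring

end MPS
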