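import Pool.Agent.helper36.MP.SpecP

/-!
# MP_af9036_an, module LV: the deficit inequalities
-/

set_option autoImplicit false

open Complex Metric Set Filter Topology MeasureTheory

noncomputable section

namespace MPS

theorem LV_dens {k : ℕ} [NeZero k] (n : ℕ) (c : ℂ) (b g : ZMod k → ℂ) (G : ℕ → ℂ → ℂ) (q : ℕ)
    (w : ℂ) : dens n c b g (G q) w =
      Df n c b g (G q w) * ‖deriv (G q) w‖ ^ 2 + 2 * ‖eef n c b g G q w‖ := by
  unfold dens eef
  rw [norm_mul, norm_pow]
  ring

/-- LV. -/
theorem LV (hLEI : LEI_stmt) : LV_stmt := by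
  intro n k _ c b g G Ω Q hn hb hΩ hL
  obtain ⟨-, h0, h1, -, h2, h3⟩ := hLEI n k c b g G Ω Q hn hb hΩ hL
  have hA : ∀ Q' ≤ Q, ∀ w ∈ Ω, (‖tau b g G Q' w‖ - (tau b g G Q' w).re) +
    ∑ q ∈ Finset.range Q', ∑ j ∈ Finset.Ico 1 n,
      (‖bet n b g G (q + 1) j w‖ - (bet n b g G (q + 1) j w).re) ≤
    ∑ q ∈ Finset.range Q', dens n c b g (G q) w := by
    intro Q'
    induction Q' with
    | zero =>
      intro _ w hw
      simp [h0 w hw]
    | succ m ih =>
      intro hm w hw
      have ih' := ih (by omega) w hw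
      have e1 := h1 m (by omega) w hw
      have e2 := h2 m (by omega) w hw
      have e3 := LV_dens n c b g G m w
      rw [Finset.sum_range_succ, Finset.sum_range_succ, e3, e2]
      have e4 : (tau b g G m w).re = (tau b g G (m + 1) w).re +
          ∑ j ∈ Finset.Ico 1 n, (bet n b g G (m + 1) j w).re + (eef n c b g G m w).re := by
        rw [e1, Complex.add_re, Complex.add_re, Complex.re_sum]
      have e5 := norm_sub_le (tau b g G m w) (eef n c b g G m w)
      have e6 := Complex.re_le_norm (eef n c b g G m w)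
      rw [Finset.sum_sub_distrib (fun j => ‖bet n b g G (m + 1) j w‖)
        (fun j => (bet n b g G (m + 1) j w).re) (s := Finset.Ico 1 n)]
      linarith
  have hnn : ∀ q ≤ Q, ∀ w ∈ Ω, G q w ≠ c → 0 ≤ dens n c b g (G q) w := by
    intro q hq w hw hc
    obtain ⟨e1, e2⟩ := h3 q hq w hw hc
    rw [LV_dens, e2]
    have e3 : tau b g G q w - eef n c b g G q w =
        ∑ j ∈ Finset.range n, brv n b g (G q) w (om n ^ j * rt n (G q w - c)) := by
      rw [e1, add_sub_cancel_right]
    have e4 := norm_sum_le (Finset.range n)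
      (fun j => brv n b g (G q) w (om n ^ j * rt n (G q w - c)))
    rw [e3]
    have e5 := norm_nonneg (eef n c b g G q w)
    linarith
  refine ⟨hA, ?_, hnn, ?_⟩
  · intro Q' hQ' w hw hc
    obtain ⟨e1, e2⟩ := h3 Q' hQ' w hw hc
    have e3 := hA Q' hQ' w hw
    have e4 : 0 ≤ ∑ q ∈ Finset.range Q', ∑ j ∈ Finset.Ico 1 n,
        (‖bet n b g G (q + 1) j w‖ - (bet n b g G (q + 1) j w).re) := by
      refine Finset.sum_nonneg fun q _ => Finset.sum_nonneg fun j _ => ?_
      exact sub_nonneg.2 (Complex.re_le_norm _)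
    rw [Finset.sum_range_succ, LV_dens, e2]
    have e5 : (tau b g G Q' w).re = ∑ j ∈ Finset.range n,
        (brv n b g (G Q') w (om n ^ j * rt n (G Q' w - c))).re + (eef n c b g G Q' w).re := by
      conv_lhs => rw [e1]
      rw [Complex.add_re, Complex.re_sum]
    have e6 := norm_sub_le (tau b g G Q' w) (eef n c b g G Q' w)
    have e7 := Complex.re_le_norm (eef n c b g G Q' w)
    rw [Finset.sum_sub_distrib (fun j => ‖brv n b g (G Q') w (om n ^ j * rt n (G Q' w - c))‖)
      (fun j => (brv n b g (G Q') w (om n ^ j * rt n (G Q' w - c))).re) (s := Finset.range n)]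
    linarith
  · intro q
    induction q with
    | zero =>
      intro _ w hw
      simp [h0 w hw]
    | succ m ih =>
      intro hm w hw
      have ih' := ih (by omega) w hw
      have e1 := h1 m (by omega) w hw
      rw [Finset.sum_Icc_succ_top (by omega)]
      have e2 : tau b g G (m + 1) w - 1 = (tau b g G m w - 1) -
          (∑ j ∈ Finset.Ico 1 n, bet n b g G (m + 1) j w + eef n c b g G m w) := by
        rw [e1]
        ring
      have e3 : ‖∑ j ∈ Finset.Ico 1 n, bet n b g G (m + 1) j w + eef n c b g G m w‖ ≤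
          lev n c b g G (m + 1) w := by
        unfold lev
        refine (norm_add_le _ _).trans ?_
        rw [Nat.add_sub_cancel]
        exact add_le_add (norm_sum_le _ _) le_rfl
      rw [e2]
      exact (norm_sub_le _ _).trans (add_le_add ih' e3)

end MPS
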