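import Pool.Agent.helper36.MP.SpecP

/-!
# MP_af9036_an, module PNX: the induced natural map at the pole `b (-Q)`
-/

set_option autoImplicit false

open Complex Metric Set Filter Topology MeasureTheory

noncomputable section

namespace MPS

theorem PNX_mem {a₁ : ℝ} {w : ℂ} (hw : w ∈ HP a₁) : exp w ∈ ball (0 : ℂ) (Real.exp (-a₁)) := by
  rw [mem_ball_zero_iff, Complex.norm_exp]
  exact Real.exp_lt_exp.2 hw

theorem PNX_log {a₁ : ℝ} {u : ℂ} (hu : u ∈ ball (0 : ℂ) (Real.exp (-a₁))) (h0 : u ≠ 0) :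
    log u ∈ HP a₁ := by
  show (log u).re < -a₁
  rw [Complex.log_re, Real.log_lt_iff_lt_exp (norm_pos_iff.2 h0)]
  exact mem_ball_zero_iff.1 hu

theorem PNX_convex (a₁ : ℝ) : Convex ℝ (HP a₁) := convex_halfSpace_re_lt (-a₁)

/-- the function `w ↦ P (exp w)` is `1/4`-Lipschitz -/
theorem PNX_lip {P : ℂ → ℂ} {a₁ : ℝ} (hP : DifferentiableOn ℂ P (ball 0 (Real.exp (-a₁))))
    (hP' : ∀ u ∈ ball (0 : ℂ) (Real.exp (-a₁)), ‖u * deriv P u‖ ≤ 1 / 4) {w₁ w₂ : ℂ}
    (h1 : w₁ ∈ HP a₁) (h2 : w₂ ∈ HP a₁) :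
    ‖P (exp w₁) - P (exp w₂)‖ ≤ 1 / 4 * ‖w₁ - w₂‖ := by
  refine Convex.norm_image_sub_le_of_norm_hasDerivWithin_le (f := fun w => P (exp w))
    (f' := fun w => deriv P (exp w) * exp w) (s := HP a₁) (x := w₂) (y := w₁) ?_ ?_
    (PNX_convex a₁) h2 h1
  · intro w hw
    have h3 : DifferentiableAt ℂ P (exp w) :=
      hP.differentiableAt (isOpen_ball.mem_nhds (PNX_mem hw))
    exact (HasDerivAt.comp w h3.hasDerivAt (Complex.hasDerivAt_exp w)).hasDerivWithinAt
  · intro w hw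
    rw [mul_comm]
    exact hP' _ (PNX_mem hw)

theorem PNX_inj {P : ℂ → ℂ} {a₁ : ℝ} (κ : ℂ)
    (hP : DifferentiableOn ℂ P (ball 0 (Real.exp (-a₁))))
    (hP' : ∀ u ∈ ball (0 : ℂ) (Real.exp (-a₁)), ‖u * deriv P u‖ ≤ 1 / 4) :
    InjOn (fun u => u * exp (κ + P u)) (ball 0 (Real.exp (-a₁))) := by
  intro u₁ h1 u₂ h2 h
  have h' : u₁ * exp (κ + P u₁) = u₂ * exp (κ + P u₂) := h
  rcases eq_or_ne u₁ 0 with h10 | h10
  · rw [h10, zero_mul] at h'
    rcases mul_eq_zero.1 h'.symm with h3 | h3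
    · rw [h10, h3]
    · exact absurd h3 (Complex.exp_ne_zero _)
  rcases eq_or_ne u₂ 0 with h20 | h20
  · rw [h20, zero_mul] at h'
    rcases mul_eq_zero.1 h' with h3 | h3
    · exact absurd h3 h10
    · exact absurd h3 (Complex.exp_ne_zero _)
  have e1 : exp (log u₁) = u₁ := Complex.exp_log h10
  have e2 : exp (log u₂) = u₂ := Complex.exp_log h20
  have e3 : exp (log u₁ + (κ + P u₁)) = exp (log u₂ + (κ + P u₂)) := by
    rw [Complex.exp_add (log u₁), Complex.exp_add (log u₂), e1, e2, h']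
  obtain ⟨m, hm⟩ := Complex.exp_eq_exp_iff_exists_int.1 e3
  set w₂ : ℂ := log u₂ + m * (2 * Real.pi * I) with hw₂
  have e4 : exp w₂ = u₂ := by
    rw [hw₂, Complex.exp_add, e2, Complex.exp_int_mul_two_pi_mul_I, mul_one]
  have m1 : log u₁ ∈ HP a₁ := PNX_log h1 h10
  have m2 : w₂ ∈ HP a₁ := by
    have h3 : log u₂ ∈ HP a₁ := PNX_log h2 h20
    have h4 : w₂.re = (log u₂).re := by
      rw [hw₂, Complex.add_re]
      simp
    show w₂.re < -a₁
    rw [h4]
    exact h3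
  have h5 := PNX_lip hP hP' m1 m2
  rw [e1, e4] at h5
  have h6 : P u₁ - P u₂ = -(log u₁ - w₂) := by
    rw [hw₂]
    linear_combination hm
  rw [h6, norm_neg] at h5
  have h7 : ‖log u₁ - w₂‖ = 0 := by
    have := norm_nonneg (log u₁ - w₂)
    linarith
  have h8 : log u₁ = w₂ := sub_eq_zero.1 (norm_eq_zero.1 h7)
  rw [← e1, h8, e4]

theorem PNX_surj {P : ℂ → ℂ} {a₁ e : ℝ} (κ : ℂ) (he : 0 ≤ e)
    (hP : DifferentiableOn ℂ P (ball 0 (Real.exp (-a₁))))
    (hPe : ∀ u ∈ ball (0 : ℂ) (Real.exp (-a₁)), ‖P u‖ ≤ e)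
    (hP' : ∀ u ∈ ball (0 : ℂ) (Real.exp (-a₁)), ‖u * deriv P u‖ ≤ 1 / 4) {v : ℂ}
    (hv : v ∈ ball (0 : ℂ) (Real.exp (κ.re - a₁ - e))) :
    ∃ u ∈ ball (0 : ℂ) (Real.exp (-a₁)), u * exp (κ + P u) = v := by
  rcases eq_or_ne v 0 with h0 | h0
  · refine ⟨0, ?_, ?_⟩
    · rw [mem_ball_zero_iff, norm_zero]
      exact Real.exp_pos _
    · rw [zero_mul, h0]
  set z : ℂ := log v with hz
  have hzre : z.re < κ.re - a₁ - e := by
    rw [hz, Complex.log_re, Real.log_lt_iff_lt_exp (norm_pos_iff.2 h0)]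
    exact mem_ball_zero_iff.1 hv
  set S : Set ℂ := closedBall (z - κ) e with hS
  have hSub : ∀ w ∈ S, w ∈ HP a₁ := by
    intro w hw
    rw [hS, mem_closedBall_iff_norm] at hw
    have h1 := Complex.abs_re_le_norm (w - (z - κ))
    rw [Complex.sub_re, Complex.sub_re] at h1
    have h2 := (abs_le.1 (h1.trans hw)).2
    show w.re < -a₁
    linarith
  set T : ℂ → ℂ := fun w => z - κ - P (exp w) with hT
  have hmaps : MapsTo T S S := by
    intro w hw
    rw [hS, mem_closedBall_iff_norm]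
    have h1 : T w - (z - κ) = -P (exp w) := by
      simp only [hT]
      ring
    rw [h1, norm_neg]
    exact hPe _ (PNX_mem (hSub w hw))
  have hcontr : ContractingWith (1 / 4) (hmaps.restrict T S S) := by
    refine ⟨?_, ?_⟩
    · rw [← NNReal.coe_lt_coe]
      push_cast
      norm_num
    · refine LipschitzWith.of_dist_le_mul ?_
      rintro ⟨x, hx⟩ ⟨y, hy⟩
      rw [Subtype.dist_eq, Subtype.dist_eq]
      simp only [MapsTo.val_restrict_apply]
      rw [dist_eq_norm, dist_eq_norm]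
      have h1 : T x - T y = -(P (exp x) - P (exp y)) := by
        simp only [hT]
        ring
      rw [h1, norm_neg]
      have h2 := PNX_lip hP hP' (hSub x hx) (hSub y hy)
      refine h2.trans (le_of_eq ?_)
      push_cast
      ring
  have hmem : z - κ ∈ S := mem_closedBall_self he
  obtain ⟨w, hw, hfix, -⟩ := hcontr.exists_fixedPoint' isClosed_closedBall.isComplete hmaps hmem
    (edist_ne_top _ _)
  have hfix' : z - κ - P (exp w) = w := hfix
  refine ⟨exp w, PNX_mem (hSub w hw), ?_⟩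
  rw [← Complex.exp_add]
  have h1 : w + (κ + P (exp w)) = z := by
    linear_combination (-1 : ℂ) * hfix'
  rw [h1, hz, Complex.exp_log h0]

theorem PNX_deriv {P : ℂ → ℂ} {a₁ : ℝ} (κ : ℂ)
    (hP : DifferentiableOn ℂ P (ball 0 (Real.exp (-a₁)))) {u : ℂ}
    (hu : u ∈ ball (0 : ℂ) (Real.exp (-a₁))) :
    HasStrictDerivAt (fun u => u * exp (κ + P u)) (exp (κ + P u) * (1 + u * deriv P u)) u := by
  have h1 : HasDerivAt P (deriv P u) u :=
    (hP.differentiableAt (isOpen_ball.mem_nhds hu)).hasDerivAt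
  have h2 : HasDerivAt (fun u => κ + P u) (deriv P u) u := h1.const_add κ
  have h3 : HasDerivAt (fun u => exp (κ + P u)) (exp (κ + P u) * deriv P u) u := h2.cexp
  have h4 : HasDerivAt (fun u => u * exp (κ + P u))
      (1 * exp (κ + P u) + u * (exp (κ + P u) * deriv P u)) u := (hasDerivAt_id u).mul h3
  have h5 : HasDerivAt (fun u => u * exp (κ + P u)) (exp (κ + P u) * (1 + u * deriv P u)) u := by
    refine h4.congr_deriv ?_
    ring
  have h6 : DifferentiableOn ℂ (fun u => u * exp (κ + P u)) (ball 0 (Real.exp (-a₁))) := by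
    intro x hx
    have h7 : DifferentiableAt ℂ P x := hP.differentiableAt (isOpen_ball.mem_nhds hx)
    exact (differentiableAt_id.mul
      ((differentiableAt_const κ).add h7).cexp).differentiableWithinAt
  have h8 := (h6.analyticAt (isOpen_ball.mem_nhds hu)).hasStrictDerivAt
  rw [h5.deriv] at h8
  exact h8

theorem PNX_dne {P : ℂ → ℂ} {a₁ : ℝ} (κ : ℂ)
    (hP' : ∀ u ∈ ball (0 : ℂ) (Real.exp (-a₁)), ‖u * deriv P u‖ ≤ 1 / 4) {u : ℂ}
    (hu : u ∈ ball (0 : ℂ) (Real.exp (-a₁))) :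
    1 + u * deriv P u ≠ 0 ∧ exp (κ + P u) * (1 + u * deriv P u) ≠ 0 := by
  have h1 : 1 + u * deriv P u ≠ 0 := by
    intro h
    have h2 : u * deriv P u = -1 := by linear_combination h
    have h3 := hP' u hu
    rw [h2, norm_neg, norm_one] at h3
    norm_num at h3
  exact ⟨h1, mul_ne_zero (Complex.exp_ne_zero _) h1⟩

/-- the inverse function -/
theorem PNX_inv {P : ℂ → ℂ} {a₁ e : ℝ} (κ : ℂ) (he : 0 ≤ e)
    (hP : DifferentiableOn ℂ P (ball 0 (Real.exp (-a₁))))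
    (hPe : ∀ u ∈ ball (0 : ℂ) (Real.exp (-a₁)), ‖P u‖ ≤ e)
    (hP' : ∀ u ∈ ball (0 : ℂ) (Real.exp (-a₁)), ‖u * deriv P u‖ ≤ 1 / 4) :
    ∃ W : ℂ → ℂ, (∀ v ∈ ball (0 : ℂ) (Real.exp (κ.re - a₁ - e)),
        W v ∈ ball (0 : ℂ) (Real.exp (-a₁)) ∧ W v * exp (κ + P (W v)) = v ∧
        HasDerivAt W (exp (κ + P (W v)) * (1 + W v * deriv P (W v)))⁻¹ v) ∧
      ∀ u ∈ ball (0 : ℂ) (Real.exp (-a₁)), W (u * exp (κ + P u)) = u := by
  set V : ℂ → ℂ := fun u => u * exp (κ + P u) with hV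
  set D : Set ℂ := ball 0 (Real.exp (-a₁)) with hD
  have hinj : InjOn V D := PNX_inj κ hP hP'
  set W : ℂ → ℂ := Function.invFunOn V D with hW
  have hleft : ∀ u ∈ D, W (V u) = u := fun u hu => hinj.leftInvOn_invFunOn hu
  have hright : ∀ v ∈ ball (0 : ℂ) (Real.exp (κ.re - a₁ - e)), W v ∈ D ∧ V (W v) = v := by
    intro v hv
    have h1 : ∃ u ∈ D, V u = v := PNX_surj κ he hP hPe hP' hv
    exact ⟨Function.invFunOn_mem h1, Function.invFunOn_eq h1⟩
  refine ⟨W, ?_, hleft⟩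
  intro v hv
  obtain ⟨h1, h2⟩ := hright v hv
  have h3 : HasStrictDerivAt V (exp (κ + P (W v)) * (1 + W v * deriv P (W v))) (W v) :=
    PNX_deriv κ hP h1
  have h4 : exp (κ + P (W v)) * (1 + W v * deriv P (W v)) ≠ 0 := (PNX_dne κ hP' h1).2
  have h5 : map V (𝓝 (W v)) = 𝓝 v := by
    rw [h3.map_nhds_eq h4, h2]
  have h6 : ContinuousAt W v := by
    show Tendsto W (𝓝 v) (𝓝 (W v))
    rw [← h5, tendsto_map'_iff]
    refine tendsto_id.congr' ?_
    filter_upwards [isOpen_ball.mem_nhds h1] with x hx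
    exact (hleft x hx).symm
  refine ⟨h1, h2, ?_⟩
  refine HasDerivAt.of_local_left_inverse h6 h3.hasDerivAt h4 ?_
  filter_upwards [isOpen_ball.mem_nhds hv] with y hy
  exact (hright y hy).2

/-- PNX. -/
theorem PNX (hLEA : LEA_stmt) (hP1A : P1A_stmt) (hP1U : P1U_stmt) : PNX_stmt := by
  intro n k _ c b g ψ R ε δ A G Q P κ hH hQ hP hP0 hPb hPt
  have hδ := hH.d0
  obtain ⟨W, hW1, hW2⟩ := PNX_inv (a₁ := A Q + δ / 8) (e := δ / 32) κ (by positivity) hP
    (fun u hu => (hPb u hu).1) (fun u hu => (hPb u hu).2)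
  obtain ⟨hdiff, -, -, hlev, -, -⟩ := hP1A n k c b g ψ R ε δ A G Q hH
  obtain ⟨-, -, -, hder, -⟩ := hP1U n k c b g ψ R ε δ A G Q hH
  have hGd : DifferentiableOn ℂ (G Q) (ball 0 (Real.exp (-A Q))) := hdiff Q le_rfl
  have hsub : ball (0 : ℂ) (Real.exp (-(A Q + δ / 8))) ⊆ ball 0 (Real.exp (-A Q)) := by
    refine ball_subset_ball (Real.exp_le_exp.2 ?_)
    linarith
  have hHPsub : ∀ w, w ∈ HP (A Q + δ / 8) → w ∈ HP (A Q) := by
    intro w hw
    have h1 : w.re < -(A Q + δ / 8) := hw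
    show w.re < -A Q
    linarith
  have hHPo : IsOpen (HP (A Q)) := isOpen_lt Complex.continuous_re continuous_const
  obtain ⟨hav, -, -, -, -, -⟩ := hLEA n k c b g (GW G) (HP (A Q)) Q hH.su.hn hH.su.cyc hHPo
    (hlev Q le_rfl)
  have hv0 : (0 : ℂ) ∈ ball (0 : ℂ) (Real.exp (κ.re - (A Q + δ / 8) - δ / 32)) := by
    rw [mem_ball_zero_iff, norm_zero]
    exact Real.exp_pos _
  have hu0 : (0 : ℂ) ∈ ball (0 : ℂ) (Real.exp (-(A Q + δ / 8))) := by
    rw [mem_ball_zero_iff, norm_zero]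
    exact Real.exp_pos _
  have hW0 : W 0 = 0 := by
    have h1 := hW2 0 hu0
    rwa [zero_mul] at h1
  have hda : ∀ v ∈ ball (0 : ℂ) (Real.exp (κ.re - (A Q + δ / 8) - δ / 32)),
      HasDerivAt (fun v => G Q (W v))
        (deriv (G Q) (W v) * (exp (κ + P (W v)) * (1 + W v * deriv P (W v)))⁻¹) v := by
    intro v hv
    obtain ⟨h1, -, h2⟩ := hW1 v hv
    have h3 : DifferentiableAt ℂ (G Q) (W v) :=
      hGd.differentiableAt (isOpen_ball.mem_nhds (hsub h1))
    exact HasDerivAt.comp v h3.hasDerivAt h2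
  have hd0 : deriv (fun v => G Q (W v)) 0 = deriv (G Q) 0 * (exp κ)⁻¹ := by
    rw [(hda 0 hv0).deriv, hW0, hP0, add_zero, zero_mul, add_zero, mul_one]
  refine ⟨fun v => G Q (W v), ⟨Real.exp_pos _, ?_, ?_, ?_, ?_, ?_⟩, ?_, ?_⟩
  · intro v hv
    exact (hda v hv).differentiableAt.differentiableWithinAt
  · show G Q (W 0) = b (-(Q : ZMod k))
    rw [hW0]
    exact hH.sys.val Q le_rfl
  · rw [hd0]
    exact mul_ne_zero (hder Q le_rfl) (inv_ne_zero (Complex.exp_ne_zero _))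
  · intro v hv hne j
    obtain ⟨h1, h2, -⟩ := hW1 v hv
    have h3 : W v ≠ 0 := by
      intro h
      rw [h, zero_mul] at h2
      exact hne h2.symm
    have h4 := hav Q le_rfl (log (W v)) (hHPsub _ (PNX_log h1 h3)) j
    unfold GW at h4
    rw [Complex.exp_log h3] at h4
    exact h4
  · intro v hv hne
    obtain ⟨h1, h2, -⟩ := hW1 v hv
    have h3 : W v ≠ 0 := by
      intro h
      rw [h, zero_mul] at h2
      exact hne h2.symm
    rw [(hda v hv).deriv]
    show v ^ 2 * (deriv (G Q) (W v) * (exp (κ + P (W v)) * (1 + W v * deriv P (W v)))⁻¹) ^ 2 *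
      BB b g (G Q (W v)) = 1
    set u := W v with hu
    have h4 := hPt (log u) (PNX_log h1 h3)
    have h5 : exp (log u) = u := Complex.exp_log h3
    have h6 : deriv (GW G Q) (log u) = deriv (G Q) u * u := by
      have h7 : DifferentiableAt ℂ (G Q) (exp (log u)) := by
        rw [h5]
        exact hGd.differentiableAt (isOpen_ball.mem_nhds (hsub h1))
      have h8 := HasDerivAt.comp (log u) h7.hasDerivAt (Complex.hasDerivAt_exp (log u))
      rw [h5] at h8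
      exact h8.deriv
    unfold tau at h4
    rw [h6] at h4
    have h9 : GW G Q (log u) = G Q u := by
      unfold GW
      rw [h5]
    rw [h9, h5] at h4
    obtain ⟨h10, -⟩ := PNX_dne κ (fun u hu => (hPb u hu).2) h1
    have h11 : exp (κ + P u) ≠ 0 := Complex.exp_ne_zero _
    rw [← h2]
    field_simp
    linear_combination (-1 : ℂ) * h4
  · rw [hd0, mul_assoc, inv_mul_cancel₀ (Complex.exp_ne_zero _), mul_one]
  · intro u hu _
    show G Q (W (u * exp (κ + P u))) = G Q u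
    rw [hW2 u hu]

end MPS
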