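import Pool.Agent.helper36.MP.SpecZ

/-!
# MP_af9036_an, modules ZL and ZBIG
-/

set_option autoImplicit false

open Complex Metric Set Filter Topology MeasureTheory

noncomputable section

namespace MPS

theorem ZL_fd {n : ℕ} (hn : 2 ≤ n) (z : ℂ) : HasDerivAt (fd n) (fdd n z) z := by
  unfold fd fdd
  have h1 : HasDerivAt (fun z : ℂ => z ^ (n - 1)) (((n - 1 : ℕ) : ℂ) * z ^ (n - 1 - 1)) z :=
    hasDerivAt_pow (n - 1) z
  have h2 := h1.const_mul (n : ℂ)
  have h3 : ((n - 1 : ℕ) : ℂ) = (n : ℂ) - 1 := by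
    rw [Nat.cast_sub (by omega)]
    simp
  have h4 : n - 1 - 1 = n - 2 := by omega
  rw [h3, h4] at h2
  refine h2.congr_deriv ?_
  ring

theorem ZL_fd_ne {n : ℕ} (hn : 2 ≤ n) {z : ℂ} (hz : z ≠ 0) : fd n z ≠ 0 := by
  unfold fd
  refine mul_ne_zero ?_ (pow_ne_zero _ hz)
  exact_mod_cast (by omega : n ≠ 0)

/-- ZL. -/
theorem ZL : ZL_stmt := by
  intro n k _ U b c g hn hU hc hd hstep hne hg
  have hdat : ∀ i, DifferentiableAt ℂ (fun c' => b c' i) c :=
    fun i => (hd i).differentiableAt (hU.mem_nhds hc)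
  set b' : ZMod k → ℂ := fun i => deriv (fun c' => b c' i) c with hb'
  have hD : ∀ i, HasDerivAt (fun c' => b c' i) (b' i) c := fun i => (hdat i).hasDerivAt
  have hb1 : ∀ i, b' (i + 1) = fd n (b c i) * b' i + 1 := by
    intro i
    have h1 : HasDerivAt (fun c' => b c' i ^ n + c') (n * b c i ^ (n - 1) * b' i + 1) c :=
      ((hD i).pow n).add (hasDerivAt_id c)
    have h2 : (fun c' => b c' i ^ n + c') =ᶠ[𝓝 c] fun c' => b c' (i + 1) := by
      filter_upwards [hU.mem_nhds hc] with c' hc'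
      exact hstep c' hc' i
    have h3 : HasDerivAt (fun c' => b c' (i + 1)) (n * b c i ^ (n - 1) * b' i + 1) c :=
      h1.congr_of_eventuallyEq h2.symm
    exact (hD (i + 1)).unique h3
  have hfd : ∀ i, HasDerivAt (fun c' => fd n (b c' i)) (fdd n (b c i) * b' i) c :=
    fun i => HasDerivAt.comp (h₂ := fd n) c (ZL_fd hn (b c i)) (hD i)
  have hfne : ∀ i, fd n (b c i) ≠ 0 := fun i => ZL_fd_ne hn (hne i)
  have h1 : deriv (fun c' => rho n (b c')) c / rho n (b c) =
      ∑ i, fdd n (b c i) * b' i / fd n (b c i) := by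
    have h2 := logDeriv_prod (s := (Finset.univ : Finset (ZMod k)))
      (f := fun i c' => fd n (b c' i)) (x := c) (fun i _ => hfne i)
      (fun i _ => (hfd i).differentiableAt)
    rw [logDeriv_apply] at h2
    have h3 : (fun c' => rho n (b c')) = fun x => ∏ i : ZMod k, fd n (b x i) := rfl
    rw [h3]
    refine h2.trans (Finset.sum_congr rfl fun i _ => ?_)
    rw [logDeriv_apply, (hfd i).deriv]
  rw [h1]
  have h4 : ∀ i, fdd n (b c i) * b' i / fd n (b c i) =
      g i * b' i - g (i + 1) * (b' (i + 1) - 1) := by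
    intro i
    have h5 := hg i
    have h6 := hfne i
    have h7 := hb1 i
    have h8 : fdd n (b c i) / fd n (b c i) = g i - fd n (b c i) * g (i + 1) := by
      rw [h5]
      field_simp
      ring
    rw [h7, mul_div_right_comm, h8]
    ring
  rw [Finset.sum_congr rfl fun i _ => h4 i, Finset.sum_sub_distrib]
  have h9 : ∑ i, g (i + 1) * (b' (i + 1) - 1) = ∑ i, g i * (b' i - 1) :=
    Equiv.sum_comp (Equiv.addRight (1 : ZMod k)) fun i => g i * (b' i - 1)
  rw [h9, ← Finset.sum_sub_distrib]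
  refine Finset.sum_congr rfl fun i _ => ?_
  ring

/-! ## ZBIG -/

theorem ZBIG_deriv (n : ℕ) (c : ℂ) : ∀ (k : ℕ) (z : ℂ),
    HasDerivAt ((fc n c)^[k]) (∏ j ∈ Finset.range k, fd n ((fc n c)^[j] z)) z := by
  intro k
  induction k with
  | zero =>
    intro z
    simpa using hasDerivAt_id z
  | succ m ih =>
    intro z
    have h1 : HasDerivAt (fc n c) (fd n z) z := by
      unfold fc fd
      exact (hasDerivAt_pow n z).add_const c
    have h2 : HasDerivAt ((fc n c)^[m] ∘ fc n c)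
        ((∏ j ∈ Finset.range m, fd n ((fc n c)^[j] (fc n c z))) * fd n z) z :=
      HasDerivAt.comp z (ih (fc n c z)) h1
    rw [Function.iterate_succ, Finset.prod_range_succ']
    exact h2

theorem ZBIG_num {C M : ℝ} (hC : 3 ≤ C) (hM : M ≤ 1 ∨ M ^ 2 ≤ M + C) : (69 : ℝ) / 100 ≤ C - M := by
  rcases hM with h | h
  · linarith
  · rcases le_total M (231 / 100) with h1 | h1
    · linarith
    · nlinarith

theorem ZBIG_fd {n : ℕ} (hn : 2 ≤ n) {z : ℂ} (hz : (69 : ℝ) / 100 ≤ ‖z‖ ^ n) :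
    (3 / 2 : ℝ) ≤ ‖fd n z‖ := by
  unfold fd
  rw [norm_mul, norm_pow, Complex.norm_natCast]
  have hz0 := norm_nonneg z
  have hn' : (2 : ℝ) ≤ n := by exact_mod_cast hn
  rcases le_total 1 ‖z‖ with h | h
  · have h1 : 1 ≤ ‖z‖ ^ (n - 1) := one_le_pow₀ h
    nlinarith
  · rcases eq_or_lt_of_le hn with h2 | h2
    · subst h2
      have h3 : (2 : ℕ) - 1 = 1 := rfl
      rw [h3, pow_one]
      push_cast
      nlinarith
    · have h3 : ‖z‖ ^ n ≤ ‖z‖ ^ (n - 1) := pow_le_pow_of_le_one hz0 h (Nat.sub_le n 1)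
      have h4 : (3 : ℝ) ≤ n := by exact_mod_cast h2
      nlinarith

/-- ZBIG. -/
theorem ZBIG : ZBIG_stmt := by
  intro n k c z hn hk hc hz
  have hper : ∀ j, (fc n c)^[j + k] z = (fc n c)^[j] z := by
    intro j
    rw [Function.iterate_add_apply, hz]
  obtain ⟨j₀, hj₀, hmax⟩ := Finset.exists_max_image (Finset.range k)
    (fun j => ‖(fc n c)^[j] z‖) ⟨0, Finset.mem_range.2 hk⟩
  set M : ℝ := ‖(fc n c)^[j₀] z‖ with hM
  have hall : ∀ j, ‖(fc n c)^[j] z‖ ≤ M := by
    intro j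
    have h1 : (fc n c)^[j] z = (fc n c)^[j % k] z := by
      have h2 : ∀ q r : ℕ, (fc n c)^[r + k * q] z = (fc n c)^[r] z := by
        intro q
        induction q with
        | zero => intro r; simp
        | succ m ih =>
          intro r
          have h3 : r + k * (m + 1) = (r + k * m) + k := by ring
          rw [h3, hper, ih]
      have h3 := h2 (j / k) (j % k)
      rw [Nat.mod_add_div] at h3
      exact h3
    rw [h1]
    exact hmax _ (Finset.mem_range.2 (Nat.mod_lt _ hk))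
  have hnext : ∀ j, ((fc n c)^[j] z) ^ n = (fc n c)^[j + 1] z - c := by
    intro j
    rw [Function.iterate_succ_apply', fc]
    ring
  have hM2 : M ≤ 1 ∨ M ^ 2 ≤ M + ‖c‖ := by
    rcases le_total M 1 with h | h
    · exact Or.inl h
    · right
      have h1 : M ^ 2 ≤ M ^ n := pow_le_pow_right₀ h hn
      have h2 : M ^ n = ‖(fc n c)^[j₀ + 1] z - c‖ := by
        rw [hM, ← norm_pow, hnext]
      have h3 := norm_sub_le ((fc n c)^[j₀ + 1] z) c
      have h4 := hall (j₀ + 1)
      linarith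
  have hnum := ZBIG_num hc hM2
  have hlow : ∀ j, (69 : ℝ) / 100 ≤ ‖(fc n c)^[j] z‖ ^ n := by
    intro j
    rw [← norm_pow, hnext]
    have h1 := norm_sub_norm_le c ((fc n c)^[j + 1] z)
    rw [norm_sub_rev] at h1
    have h2 := hall (j + 1)
    linarith
  unfold mlt
  rw [(ZBIG_deriv n c k z).deriv, norm_prod]
  have h1 : ∏ _j ∈ Finset.range k, (3 / 2 : ℝ) ≤
      ∏ j ∈ Finset.range k, ‖fd n ((fc n c)^[j] z)‖ :=
    Finset.prod_le_prod (fun j _ => by norm_num) fun j _ => ZBIG_fd hn (hlow j)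
  rw [Finset.prod_const, Finset.card_range] at h1
  exact h1

end MPS
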