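import Pool.Agent.helper36.MP.SpecZ
import Pool.Agent.helper25.MP.ZL

/-!
# MP_af9036_an, module ZC: continuation of repelling cycles over a disc
-/

set_option autoImplicit false

open Complex Metric Set Filter Topology MeasureTheory

noncomputable section

namespace MPS

/-- the polynomial `f^k(X)` -/
def ZC_Phi (n : ℕ) (c : ℂ) : ℕ → Polynomial ℂ
  | 0 => Polynomial.X
  | (k + 1) => (ZC_Phi n c k) ^ n + Polynomial.C c

theorem ZC_eval (n : ℕ) (c z : ℂ) : ∀ k, (ZC_Phi n c k).eval z = (fc n c)^[k] z := by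
  intro k
  induction k with
  | zero => simp [ZC_Phi]
  | succ m ih =>
    rw [Function.iterate_succ_apply', ZC_Phi, Polynomial.eval_add, Polynomial.eval_pow,
      Polynomial.eval_C, ih, fc]

theorem ZC_monic {n : ℕ} (hn : 2 ≤ n) (c : ℂ) : ∀ k, (ZC_Phi n c k).Monic ∧
    (ZC_Phi n c k).natDegree = n ^ k := by
  intro k
  induction k with
  | zero => exact ⟨Polynomial.monic_X, by simp [ZC_Phi]⟩
  | succ m ih =>
    obtain ⟨h1, h2⟩ := ih
    have h3 : ((ZC_Phi n c m) ^ n).Monic := h1.pow n
    have h4 : ((ZC_Phi n c m) ^ n).natDegree = n ^ (m + 1) := by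
      rw [h1.natDegree_pow, h2, pow_succ, mul_comm]
    have h5 : 0 < n ^ (m + 1) := Nat.pow_pos (by omega)
    constructor
    · refine h3.add_of_left ?_
      refine lt_of_le_of_lt Polynomial.degree_C_le ?_
      rw [Polynomial.degree_eq_natDegree h3.ne_zero, h4]
      exact_mod_cast h5
    · rw [ZC_Phi, Polynomial.natDegree_add_C, h4]

theorem ZC_coeff_pow (F : ℂ → Polynomial ℂ) (hF : ∀ m : ℕ, Differentiable ℂ fun c => (F c).coeff m) :
    ∀ (j m : ℕ), Differentiable ℂ fun c => ((F c) ^ j).coeff m := by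
  intro j
  induction j with
  | zero =>
    intro m
    simp only [pow_zero]
    exact differentiable_const _
  | succ i ih =>
    intro m
    have h1 : (fun c => ((F c) ^ (i + 1)).coeff m) = fun c =>
        ∑ x ∈ Finset.HasAntidiagonal.antidiagonal m, ((F c) ^ i).coeff x.1 * (F c).coeff x.2 := by
      funext c
      rw [pow_succ, Polynomial.coeff_mul]
    rw [h1]
    exact Differentiable.fun_sum fun x _ => (ih x.1).mul (hF x.2)

theorem ZC_coeff (n : ℕ) : ∀ (k m : ℕ), Differentiable ℂ fun c => (ZC_Phi n c k).coeff m := by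
  intro k
  induction k with
  | zero =>
    intro m
    simp only [ZC_Phi]
    exact differentiable_const _
  | succ i ih =>
    intro m
    have h1 : (fun c => (ZC_Phi n c (i + 1)).coeff m) = fun c =>
        ((ZC_Phi n c i) ^ n).coeff m + if m = 0 then c else 0 := by
      funext c
      rw [ZC_Phi, Polynomial.coeff_add, Polynomial.coeff_C]
    rw [h1]
    refine (ZC_coeff_pow (fun c => ZC_Phi n c i) ih n m).add ?_
    split_ifs
    · exact differentiable_id
    · exact differentiable_const _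

theorem ZC_deriv (n k : ℕ) (c z : ℂ) :
    (ZC_Phi n c k - Polynomial.X).derivative.eval z = mlt n k c z - 1 := by
  have h1 : HasDerivAt (fun x => (ZC_Phi n c k - Polynomial.X).eval x)
      ((ZC_Phi n c k - Polynomial.X).derivative.eval z) z := Polynomial.hasDerivAt _ z
  have h2 : (fun x => (ZC_Phi n c k - Polynomial.X).eval x) = fun x => (fc n c)^[k] x - x := by
    funext x
    rw [Polynomial.eval_sub, Polynomial.eval_X, ZC_eval]
  rw [h2] at h1
  have h3 : HasDerivAt (fun x => (fc n c)^[k] x - x) (mlt n k c z - 1) z := by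
    have h4 := (ZBIG_deriv n c k z)
    unfold mlt
    rw [h4.deriv]
    exact h4.sub (hasDerivAt_id z)
  exact h1.unique h3

/-- the iterate as a function of parameter and point -/
def ZC_G (n k : ℕ) (p : ℂ × ℂ) : ℂ := (fc n p.1)^[k] p.2

theorem ZC_G_contDiff (n : ℕ) : ∀ k, ContDiff ℂ 1 (ZC_G n k) := by
  intro k
  induction k with
  | zero => exact contDiff_snd
  | succ m ih =>
    have h1 : ZC_G n (m + 1) = fun p => (ZC_G n m p) ^ n + p.1 := by
      funext p
      unfold ZC_G
      rw [Function.iterate_succ_apply', fc]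
    rw [h1]
    exact (ih.pow n).add contDiff_fst

/-- local uniqueness of simple periodic points -/
theorem ZC_uniq (n k : ℕ) (z w : ℂ → ℂ) (c : ℂ) (hz : ContinuousAt z c) (hw : ContinuousAt w c)
    (hzw : w c = z c) (hz1 : ∀ᶠ c' in 𝓝 c, (fc n c')^[k] (z c') = z c')
    (hw1 : ∀ᶠ c' in 𝓝 c, (fc n c')^[k] (w c') = w c') (hm : mlt n k c (z c) ≠ 1) :
    ∀ᶠ c' in 𝓝 c, w c' = z c' := by
  set F : ℂ × ℂ → ℂ := fun p => ZC_G n k p - p.2 with hF
  have hFc : ContDiff ℂ 1 F := (ZC_G_contDiff n k).sub contDiff_snd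
  have hs : HasStrictFDerivAt F (fderiv ℂ F (c, z c)) (c, z c) :=
    hFc.contDiffAt.hasStrictFDerivAt one_ne_zero
  set L := fderiv ℂ F (c, z c) with hL
  have hL1 : L (0, 1) = mlt n k c (z c) - 1 := by
    have h1 : HasDerivAt (fun x : ℂ => (c, x)) ((0 : ℂ), (1 : ℂ)) (z c) :=
      (hasDerivAt_const (z c) c).prodMk (hasDerivAt_id (z c))
    have h2 : HasDerivAt (F ∘ fun x : ℂ => (c, x)) (L (0, 1)) (z c) :=
      HasFDerivAt.comp_hasDerivAt (z c) hs.hasFDerivAt h1
    have h3 : HasDerivAt (F ∘ fun x : ℂ => (c, x)) (mlt n k c (z c) - 1) (z c) := by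
      have h4 := (ZBIG_deriv n c k (z c))
      unfold mlt
      rw [h4.deriv]
      exact h4.sub (hasDerivAt_id (z c))
    exact h2.unique h3
  have hne : mlt n k c (z c) - 1 ≠ 0 := sub_ne_zero.2 hm
  have hpos : 0 < ‖mlt n k c (z c) - 1‖ / 2 := half_pos (norm_pos_iff.2 hne)
  have ho := hs.isLittleO.def hpos
  have htend : Tendsto (fun c' : ℂ => (((c', w c') : ℂ × ℂ), ((c', z c') : ℂ × ℂ))) (𝓝 c)
      (𝓝 ((c, z c), (c, z c))) := by
    have h1 : Tendsto (fun c' : ℂ => ((c', w c') : ℂ × ℂ)) (𝓝 c) (𝓝 (c, z c)) := by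
      rw [← hzw]
      exact tendsto_id.prodMk_nhds hw
    have h2 : Tendsto (fun c' : ℂ => ((c', z c') : ℂ × ℂ)) (𝓝 c) (𝓝 (c, z c)) :=
      tendsto_id.prodMk_nhds hz
    exact h1.prodMk_nhds h2
  filter_upwards [htend.eventually ho, hz1, hw1] with c' h1 h2 h3
  have h4 : F (c', w c') = 0 := by
    show (fc n c')^[k] (w c') - w c' = 0
    rw [h3, sub_self]
  have h5 : F (c', z c') = 0 := by
    show (fc n c')^[k] (z c') - z c' = 0
    rw [h2, sub_self]
  have h6 : ((c', w c') : ℂ × ℂ) - (c', z c') = (w c' - z c') • ((0 : ℂ), (1 : ℂ)) := by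
    ext <;> simp
  rw [h4, h5, sub_zero, zero_sub, norm_neg, h6, map_smul, hL1, norm_smul, norm_smul] at h1
  have h7 : ‖((0 : ℂ), (1 : ℂ))‖ = 1 := by simp
  rw [h7, mul_one] at h1
  have h8 : ‖w c' - z c'‖ = 0 := by
    by_contra h
    have h9 : 0 < ‖w c' - z c'‖ := lt_of_le_of_ne (norm_nonneg _) (Ne.symm h)
    nlinarith
  exact sub_eq_zero.1 (norm_eq_zero.1 h8)

/-- ZC. -/
theorem ZC (hZC0 : ZC0_stmt) : ZC_stmt := by
  intro n k c r hn hk hr hrep z₀ hz₀
  have hnk : 1 < n ^ k := Nat.one_lt_pow hk.ne' (by omega)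
  have hper0 : (fc n c)^[k] z₀ = z₀ := by
    have h1 := Function.isPeriodicPt_minimalPeriod (fc n c) z₀
    rw [hz₀] at h1
    exact h1
  obtain ⟨z, hzd, hzc, hzr⟩ := hZC0 (n ^ k) c r (fun c' => ZC_Phi n c' k - Polynomial.X) hr
    (by
      intro c' hc'
      obtain ⟨h1, h2⟩ := ZC_monic hn c' k
      refine ⟨?_, ?_, ?_⟩
      · refine h1.sub_of_left ?_
        rw [Polynomial.degree_X, Polynomial.degree_eq_natDegree h1.ne_zero, h2]
        exact_mod_cast hnk
      · rw [Polynomial.natDegree_sub_eq_left_of_natDegree_lt, h2]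
        rw [Polynomial.natDegree_X, h2]
        exact hnk
      · intro z hz
        rw [ZC_deriv]
        rw [Polynomial.eval_sub, Polynomial.eval_X, ZC_eval, sub_eq_zero] at hz
        have h3 := hrep c' hc' z hz
        intro h4
        rw [sub_eq_zero] at h4
        rw [h4, norm_one] at h3
        exact lt_irrefl _ h3)
    (by
      intro m
      have h1 : (fun c' => (ZC_Phi n c' k - Polynomial.X).coeff m) = fun c' =>
          (ZC_Phi n c' k).coeff m - (Polynomial.X : Polynomial ℂ).coeff m := by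
        funext c'
        rw [Polynomial.coeff_sub]
      rw [h1]
      exact ((ZC_coeff n k m).sub (differentiable_const _)).differentiableOn)
    z₀ (by
      rw [Polynomial.eval_sub, Polynomial.eval_X, ZC_eval, hper0, sub_self])
  have hroot : ∀ c' ∈ ball c r, (fc n c')^[k] (z c') = z c' := by
    intro c' hc'
    have h1 := hzr c' hc'
    rw [Polynomial.eval_sub, Polynomial.eval_X, ZC_eval, sub_eq_zero] at h1
    exact h1
  refine ⟨z, hzd, hzc, ?_⟩
  intro c' hc'
  set p := Function.minimalPeriod (fc n c') (z c') with hp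
  have hpk : p ∣ k := Function.IsPeriodicPt.minimalPeriod_dvd (hroot c' hc')
  have hppos : 0 < p := Nat.pos_of_dvd_of_pos hpk hk
  have hpper : (fc n c')^[p] (z c') = z c' := Function.isPeriodicPt_minimalPeriod (fc n c') (z c')
  set w : ℂ → ℂ := fun x => (fc n x)^[p] (z x) with hw
  have hwc : ContinuousOn w (ball c r) := by
    have h1 : ContinuousOn (fun x => ((x, z x) : ℂ × ℂ)) (ball c r) :=
      continuousOn_id.prodMk hzd.continuousOn
    exact (ZC_G_contDiff n p).continuous.comp_continuousOn h1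
  have hwroot : ∀ x ∈ ball c r, (fc n x)^[k] (w x) = w x := by
    intro x hx
    show (fc n x)^[k] ((fc n x)^[p] (z x)) = (fc n x)^[p] (z x)
    rw [← Function.iterate_add_apply, add_comm, Function.iterate_add_apply, hroot x hx]
  set U : Set ℂ := {x ∈ ball c r | w x = z x} with hU
  set V : Set ℂ := {x ∈ ball c r | w x ≠ z x} with hV
  have hUo : IsOpen U := by
    rw [isOpen_iff_mem_nhds]
    rintro x ⟨hx, hxe⟩
    have hxn : ball c r ∈ 𝓝 x := isOpen_ball.mem_nhds hx
    have h1 := ZC_uniq n k z w x (hzd.continuousOn.continuousAt hxn) (hwc.continuousAt hxn) hxe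
      (by filter_upwards [hxn] with y hy using hroot y hy)
      (by filter_upwards [hxn] with y hy using hwroot y hy)
      (by
        intro h
        have h2 := hrep x hx (z x) (hroot x hx)
        rw [h, norm_one] at h2
        exact lt_irrefl _ h2)
    filter_upwards [h1, hxn] with y hy1 hy2
    exact ⟨hy2, hy1⟩
  have hVo : IsOpen V := by
    have h1 : V = ball c r ∩ (fun x => w x - z x) ⁻¹' {0}ᶜ := by
      ext x
      simp only [hV, mem_ofPred_eq, mem_inter_iff, mem_preimage, mem_compl_iff,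
        mem_singleton_iff, sub_eq_zero, ne_eq]
    rw [h1]
    exact (hwc.sub hzd.continuousOn).isOpen_inter_preimage isOpen_ball isOpen_compl_singleton
  have hsub : ball c r ⊆ U := by
    refine (convex_ball c r).isPreconnected.subset_left_of_subset_union hUo hVo ?_ ?_ ?_
    · rw [Set.disjoint_left]
      rintro x ⟨-, h1⟩ ⟨-, h2⟩
      exact h2 h1
    · intro x hx
      by_cases h : w x = z x
      · exact Or.inl ⟨hx, h⟩
      · exact Or.inr ⟨hx, h⟩
    · exact ⟨c', hc', hc', hpper⟩
  have hcU := hsub (mem_ball_self hr)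
  have h1 : (fc n c)^[p] z₀ = z₀ := by
    have h2 : w c = z c := hcU.2
    rw [hw] at h2
    simp only [hzc] at h2
    exact h2
  have h2 : Function.minimalPeriod (fc n c) z₀ ≤ p :=
    Function.IsPeriodicPt.minimalPeriod_le hppos h1
  rw [hz₀] at h2
  exact le_antisymm (Nat.le_of_dvd hk hpk) h2

end MPS
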